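import Pool.Agent.Helper54.UN.St

set_option autoImplicit false

noncomputable section

namespace Pool.Agent.Helper62.UNC

open Set Filter Topology
open Pool.Agent.Helper71.UN Pool.Agent.Helper54.UN

private theorem six (s Y : ℝ) (hs : s * s = 3) :
    (-1 - (-1 / 2)) * (Y - s / 2) - (0 - s / 2) * (-(s * Y) - (-1 / 2)) = s / 2 - 2 * Y := by
  linear_combination (-Y / 2) * hs

private theorem keyA (s ar ai Y : ℝ) (hs : s * s = 3) (h1 : 173 / 100 < s) (h2 : s < 1733 / 1000)
    (a1 : |ar - 1 / 2| ≤ 1 / 50) (a2 : |ai - s / 2| ≤ 1 / 50) (y1 : - (s / 4) < Y)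
    (y2 : Y < s / 4) :
    0 < (ar - 1) * Y - ai * (-(s * Y) - 1) := by
  rw [abs_le] at a1 a2
  have hc : 0 < s * ai + ar - 1 := by nlinarith
  have hc2 : s * ai + ar - 1 < 11 / 10 := by nlinarith
  have e : (ar - 1) * Y - ai * (-(s * Y) - 1) = ai + Y * (s * ai + ar - 1) := by ring
  rw [e]
  have h3 : -(s / 4) * (s * ai + ar - 1) < Y * (s * ai + ar - 1) :=
    mul_lt_mul_of_pos_right y1 hc
  have h4 : -(s / 4) * (11 / 10) < -(s / 4) * (s * ai + ar - 1) := by nlinarith
  nlinarith

private theorem keyB (s ar ai Y : ℝ) (hs : s * s = 3) (h1 : 173 / 100 < s) (h2 : s < 1733 / 1000)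
    (a1 : |ar - 1 / 2| ≤ 1 / 50) (a2 : |ai - s / 2| ≤ 1 / 50) (y1 : - (s / 4) < Y)
    (y2 : Y < s / 4) :
    0 < (-1 / 2 - ar) * (Y - ai) - (s / 2 - ai) * (-(s * Y) - ar) := by
  rw [abs_le] at a1 a2
  have h3 : (98 / 100 : ℝ) * (4 / 10) < (1 / 2 + ar) * (ai - Y) := by
    apply mul_lt_mul' (by linarith [a1.1]) (by linarith [a2.1]) (by norm_num) (by linarith [a1.1])
  have h4 : |s * Y + ar| ≤ 13 / 10 := by
    rw [abs_le]
    constructor <;> nlinarith [a1.1, a1.2]
  have h5 : |(ai - s / 2) * (s * Y + ar)| ≤ 1 / 50 * (13 / 10) := by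
    rw [abs_mul]
    apply mul_le_mul (by rw [abs_le]; exact a2) h4 (abs_nonneg _) (by norm_num)
  have h6 := neg_abs_le ((ai - s / 2) * (s * Y + ar))
  have e : (-1 / 2 - ar) * (Y - ai) - (s / 2 - ai) * (-(s * Y) - ar) =
      (1 / 2 + ar) * (ai - Y) - (ai - s / 2) * (s * Y + ar) := by ring
  rw [e]
  have h7 := le_abs_self ((ai - s / 2) * (s * Y + ar))
  linarith

theorem hELZ : StELZ := by
  intro a b τ g hG x hx ho
  have hs := s3
  have h1 := s3_gt
  have h2 := s3_lt
  have hre : x.re = -(Real.sqrt 3 * x.im) := by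
    unfold el at hx; linarith
  obtain ⟨Y, hY⟩ : ∃ Y, Y = x.im := ⟨_, rfl⟩
  have hna1 := hG.na1
  have hna2 := hG.na2
  have f6 : lf om (-1) x = Real.sqrt 3 / 2 - 2 * x.im := by
    rw [lf_eq, om_re, om_im, hre]
    simp only [Complex.neg_re, Complex.one_re, Complex.neg_im, Complex.one_im, neg_zero]
    exact six _ _ hs
  have f7 : lf om (-1) (-x) = Real.sqrt 3 / 2 + 2 * x.im := by
    rw [lf_eq, om_re, om_im]
    simp only [Complex.neg_re, Complex.one_re, Complex.neg_im, Complex.one_im, neg_zero]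
    rw [hre]
    have := six (Real.sqrt 3) (-x.im) hs
    linarith
  unfold ouH at ho
  push Not at ho
  obtain ⟨⟨-, -, ho1⟩, -, -, ho2⟩ := ho
  rw [f6] at ho1
  rw [f7] at ho2
  rcases eq_or_lt_of_le ho1 with he | hl1
  · right; left
    rw [segment_eq_image]
    refine ⟨1 / 2, ⟨by norm_num, by norm_num⟩, ?_⟩
    apply Complex.ext
    · simp only [Complex.real_smul, Complex.add_re, Complex.mul_re, Complex.ofReal_re, Complex.ofReal_im,
        om_re, Complex.neg_re, Complex.one_re]
      rw [hre]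
      nlinarith
    · simp only [Complex.real_smul, Complex.add_im, Complex.mul_im, Complex.ofReal_re, Complex.ofReal_im,
        om_im, Complex.neg_im, Complex.one_im]
      linarith
  rcases eq_or_lt_of_le ho2 with he | hl2
  · right; right
    rw [segment_eq_image]
    refine ⟨1 / 2, ⟨by norm_num, by norm_num⟩, ?_⟩
    apply Complex.ext
    · simp only [Complex.real_smul, Complex.add_re, Complex.mul_re, Complex.ofReal_re, Complex.ofReal_im,
        om_re, Complex.neg_re, Complex.one_re]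
      rw [hre]
      nlinarith
    · simp only [Complex.real_smul, Complex.add_im, Complex.mul_im, Complex.ofReal_re, Complex.ofReal_im,
        om_im, Complex.neg_im, Complex.one_im]
      linarith
  left
  refine ⟨⟨?_, ?_, ?_⟩, ?_, ?_, ?_⟩
  · rw [lf_eq, hre]
    have := keyA (Real.sqrt 3) a.re a.im x.im hs h1 h2 hna1 hna2 (by linarith) (by linarith)
    simp only [Complex.one_re, Complex.one_im, sub_zero]
    linarith
  · rw [lf_eq, hre, om_re, om_im]
    exact keyB (Real.sqrt 3) a.re a.im x.im hs h1 h2 hna1 hna2 (by linarith) (by linarith)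
  · rw [f6]; exact hl1
  · rw [lf_eq]
    have := keyA (Real.sqrt 3) a.re a.im (-x.im) hs h1 h2 hna1 hna2 (by linarith) (by linarith)
    simp only [Complex.one_re, Complex.one_im, sub_zero, Complex.neg_re, Complex.neg_im, hre]
    linarith
  · rw [lf_eq, om_re, om_im]
    have := keyB (Real.sqrt 3) a.re a.im (-x.im) hs h1 h2 hna1 hna2 (by linarith) (by linarith)
    simp only [Complex.neg_re, Complex.neg_im, hre]
    linarith
  · rw [f7]; exact hl2

end Pool.Agent.Helper62.UNC
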